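import Mathlib
import Pool.Agent.Q66.HC3

open Filter Topology

namespace Pool.Agent.Results.MP_913ab3_an.Increasing

/-- The term with index `k+1` of the series: `(-1)^{k+2} sinh y / sinh((k+1) y)`,
`y = arcosh r`. -/
noncomputable def term (r : ℝ) (k : ℕ) : ℝ :=
  (-1 : ℝ) ^ k * (Real.sinh (Real.arcosh r) / Real.sinh (((k : ℝ) + 1) * Real.arcosh r))

/-- The function `S`: the sum of the series for `r > 1`, and for `r ≤ 1` the limit from the right
at `1` of this sum. -/
noncomputable def S (r : ℝ) : ℝ :=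
  if 1 < r then ∑' k : ℕ, term r k else limUnder (𝓝[>] (1 : ℝ)) (fun r : ℝ => ∑' k : ℕ, term r k)

theorem result :
    (∀ r : ℝ, 1 < r → Summable (fun k : ℕ => |term r k|)) ∧
    Tendsto S (𝓝[>] (1 : ℝ)) (𝓝 (S 1)) ∧
    StrictMonoOn S (Set.Ici (1 : ℝ)) := by
  have hF : ∀ r : ℝ, 1 < r → ∑' k : ℕ, term r k = Q66HC.F (Real.arcosh r) := fun r _ => rfl
  have hpos : ∀ r : ℝ, 1 < r → 0 < Real.arcosh r := fun r hr => by
    have h0 := Real.arcosh_nonneg hr.le
    rcases h0.lt_or_eq with h | h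
    · exact h
    · exfalso
      have := (Real.arcosh_eq_zero_iff hr.le).1 h.symm
      linarith
  set T : ℝ → ℝ := fun r : ℝ => ∑' k : ℕ, term r k with hT
  have hlt : ∀ a b : ℝ, 1 < a → a < b → T a < T b := by
    intro a b ha hab
    have h1 : Real.arcosh a < Real.arcosh b := by
      by_contra hcon
      have h2 : Real.arcosh b ≤ Real.arcosh a := not_lt.1 hcon
      have h3 : Real.cosh (Real.arcosh b) ≤ Real.cosh (Real.arcosh a) := by
        rw [Real.cosh_le_cosh, abs_of_pos (hpos b (ha.trans hab)), abs_of_pos (hpos a ha)]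
        exact h2
      rw [Real.cosh_arcosh (ha.trans hab).le, Real.cosh_arcosh ha.le] at h3
      linarith
    simp only [hT]
    rw [hF a ha, hF b (ha.trans hab)]
    exact Q66HC.F_strictMono (hpos a ha) h1
  have hbdd : BddBelow (T '' Set.Ioi 1) := by
    refine ⟨0, ?_⟩
    rintro _ ⟨r, hr, rfl⟩
    simp only [hT]
    rw [hF r hr]
    exact (Q66HC.F_pos (hpos r hr)).le
  have hmono : MonotoneOn T (Set.Ioi 1) := by
    intro a ha b hb hab
    rcases hab.lt_or_eq with h | h
    · exact (hlt a b ha h).le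
    · rw [h]
  have hlim : Tendsto T (𝓝[>] (1 : ℝ)) (𝓝 (sInf (T '' Set.Ioi 1))) :=
    hmono.tendsto_nhdsGT hbdd
  have hS1 : S 1 = sInf (T '' Set.Ioi 1) := by
    unfold S
    rw [if_neg (lt_irrefl 1)]
    exact hlim.limUnder_eq
  have hST : ∀ r : ℝ, 1 < r → S r = T r := by
    intro r hr
    unfold S
    rw [if_pos hr]
  refine ⟨?_, ?_, ?_⟩
  · intro r hr
    exact (Q66HC.term_summable (hpos r hr)).abs
  · rw [hS1]
    apply hlim.congr'
    filter_upwards [self_mem_nhdsWithin] with r hr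
    exact (hST r hr).symm
  · intro a ha b hb hab
    have ha' : 1 ≤ a := ha
    rcases ha'.lt_or_eq with h | h
    · rw [hST a h, hST b (h.trans hab)]
      exact hlt a b h hab
    · subst h
      rw [hS1, hST b hab]
      have h1 : 1 < (1 + b) / 2 := by linarith
      have h2 : (1 + b) / 2 < b := by linarith
      exact lt_of_le_of_lt (csInf_le hbdd ⟨(1 + b) / 2, h1, rfl⟩) (hlt _ _ h1 h2)

end Pool.Agent.Results.MP_913ab3_an.Increasing
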